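import Pool.Agent.H19.BFL.Stmts2
import Pool.Agent.H68.KAL.RIM
import Pool.Agent.H33.KAL.RMG
import Pool.Agent.H99.KAL.GVI
import Pool.Agent.H97.KAL.CDF
import Pool.Agent.H93.KVA.Var

/-!
# Row REM: Remez inequality outside a small event, one variable
-/

set_option autoImplicit false

namespace Pool.BFL.Rem

open Finset Real
open Pool.Agent.H49.Ent Pool.Agent.H32.Dense Pool.STK Pool.KAF Pool.KAL

/-- The pointwise inequality. -/
lemma core {Ω : Type} [Fintype Ω] {c : Ω → ℝ} (hc : IsLaw c) {N : ℕ} {T : Ω → ℕ}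
    (hT : ∀ ω, T ω < N) {D : ℕ} {C' : ℝ} (hD : 1 ≤ D)
    (hrim : ∀ (P : Polynomial ℝ) (S : ℝ), P.natDegree ≤ D → 0 < S →
      (∃ s ∈ Set.Icc (0 : ℝ) 1, S ≤ |P.eval s|) →
      Real.log S - 2 * D * ((Real.log N - H c T) + C') ≤
        Ex c (fun ω => Real.log (max |P.eval ((T ω : ℝ) / N)| (S / N ^ D))))
    {q : Polynomial ℝ} (hq : q.natDegree ≤ D) {M S₀ : ℝ} (hM : 0 ≤ M) (hS₀ : 0 < S₀)
    (hN : M ≤ Real.log N) (Gd : Ω → ℝ) (hG0 : ∀ ω, 0 < c ω → 0 ≤ Gd ω ∧ Gd ω ≤ 1)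
    (hG : ∀ ω, 0 < c ω → Gd ω ≠ 0 → |q.eval ((T ω : ℝ) / N)| ≤ S₀)
    (hB : ¬ ∀ t ∈ Set.Icc (0 : ℝ) 1, |q.eval t| ≤ Real.exp M * S₀) :
    M * Ex c Gd ≤ 2 * D * ((Real.log N - H c T) + C') := by
  have hne : Nonempty Ω := by
    by_contra h
    rw [not_nonempty_iff] at h
    have h1 := hc.sum_one
    simp at h1
  obtain ⟨ω₀⟩ := hne
  have hN1 : 1 ≤ N := by
    have := hT ω₀
    omega
  have hN0 : (0 : ℝ) < N := by exact_mod_cast hN1
  have hN1' : (1 : ℝ) ≤ N := by exact_mod_cast hN1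
  obtain ⟨t₀, ht₀, hmax⟩ := isCompact_Icc.exists_isMaxOn
    (Set.nonempty_Icc.2 (zero_le_one : (0 : ℝ) ≤ 1))
    (f := fun t : ℝ => |q.eval t|) (q.continuous.abs.continuousOn)
  have hmax' : ∀ t ∈ Set.Icc (0 : ℝ) 1, |q.eval t| ≤ |q.eval t₀| := fun t ht => hmax ht
  obtain ⟨S, hS⟩ : ∃ S, S = |q.eval t₀| := ⟨_, rfl⟩
  rw [← hS] at hmax'
  have hSB : Real.exp M * S₀ < S := by
    by_contra hcon
    exact hB fun t ht => (hmax' t ht).trans (not_lt.1 hcon)
  have hS0 : 0 < S := lt_trans (by positivity) hSB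
  have h1 := hrim q S hq hS0 ⟨t₀, ht₀, hS.le⟩
  have hND : M ≤ Real.log (N ^ D : ℝ) := by
    rw [Real.log_pow]
    have hD' : (1 : ℝ) ≤ D := by exact_mod_cast hD
    have : 0 ≤ Real.log N := Real.log_nonneg hN1'
    nlinarith
  have hSN : S / N ^ D ≤ S * Real.exp (-M) := by
    rw [div_eq_mul_inv]
    refine mul_le_mul_of_nonneg_left ?_ hS0.le
    rw [Real.exp_neg]
    refine inv_anti₀ (Real.exp_pos _) ?_
    have := Real.exp_le_exp.2 hND
    rwa [Real.exp_log (by positivity)] at this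
  have hSN0 : 0 < S / (N : ℝ) ^ D := by positivity
  have hSN1 : S / (N : ℝ) ^ D ≤ S := div_le_self hS0.le (one_le_pow₀ hN1')
  have h2 : Ex c (fun ω => Real.log (max |q.eval ((T ω : ℝ) / N)| (S / N ^ D))) ≤
      Ex c (fun ω => Real.log S - M * Gd ω) := by
    unfold Ex
    refine Finset.sum_le_sum fun ω _ => ?_
    rcases (hc.nonneg ω).eq_or_lt with h0 | h0
    · rw [← h0, zero_mul, zero_mul]
    refine mul_le_mul_of_nonneg_left ?_ h0.le
    simp only
    have hT1 : (T ω : ℝ) / N ∈ Set.Icc (0 : ℝ) 1 := by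
      refine ⟨by positivity, ?_⟩
      rw [div_le_one hN0]
      exact_mod_cast (hT ω).le
    have h3 := hmax' _ hT1
    have hpos : 0 < max |q.eval ((T ω : ℝ) / N)| (S / N ^ D) :=
      lt_of_lt_of_le hSN0 (le_max_right _ _)
    by_cases hg : Gd ω = 0
    · rw [hg, mul_zero, sub_zero]
      exact Real.log_le_log hpos (max_le h3 hSN1)
    · have h4 := hG ω h0 hg
      have h5 : max |q.eval ((T ω : ℝ) / N)| (S / N ^ D) ≤ S * Real.exp (-M) := by
        refine max_le (h4.trans ?_) hSN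
        rw [Real.exp_neg, ← div_eq_mul_inv, le_div_iff₀ (Real.exp_pos _), mul_comm]
        exact hSB.le
      have h6 := Real.log_le_log hpos h5
      rw [Real.log_mul hS0.ne' (Real.exp_pos _).ne', Real.log_exp] at h6
      have h7 := (hG0 ω h0).2
      nlinarith
  have h3 : Ex c (fun ω => Real.log S - M * Gd ω) = Real.log S - M * Ex c Gd := by
    have e := Ex_sub c (fun _ => Real.log S) (fun ω => M * Gd ω)
    rw [Ex_const hc.sum_one] at e
    rw [e]
    congr 1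
    unfold Ex
    rw [Finset.mul_sum]
    refine Finset.sum_congr rfl fun ω _ => ?_
    ring
  linarith

theorem rem_thm : REMStmt := by
  classical
  intro D
  obtain ⟨D', hD'⟩ : ∃ D', D' = max D 1 := ⟨_, rfl⟩
  have hDD : D ≤ D' := by rw [hD']; exact le_max_left _ _
  have hD1 : 1 ≤ D' := by rw [hD']; exact le_max_right _ _
  obtain ⟨C', hC', hrim⟩ := rim_thm rmg_thm gvi_thm D'
  refine ⟨4 * D' * (1 + C') + 1, by
    have : 0 ≤ 4 * D' * (1 + C') := by positivity
    linarith, ?_⟩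
  intro Ω S' _ p N T s q Gd S₀ θ η hp hT hq hθ hη hη1 hCH hPG hS₀ hN hGd
  obtain ⟨C, hC⟩ : ∃ C, C = 4 * D' * (1 + C') + 1 := ⟨_, rfl⟩
  rw [← hC] at hN ⊢
  have hC0 : 0 < C := by
    rw [hC]
    positivity
  obtain ⟨M, hM⟩ : ∃ M, M = C * (θ + 1) / η := ⟨_, rfl⟩
  rw [← hM] at hN ⊢
  have hM0 : 0 < M := by rw [hM]; positivity
  have hp0 := hp.nonneg
  by_contra hcon
  rw [not_le] at hcon
  obtain ⟨B, hB⟩ : ∃ B : S' → Prop, B = fun x => ¬ ∀ t ∈ Set.Icc (0 : ℝ) 1,
      |(q x).eval t| ≤ Real.exp M * S₀ x := ⟨_, rfl⟩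
  obtain ⟨g, hg⟩ : ∃ g : Ω → ℝ, g = fun ω => if B (s ω) ∧ Gd ω then 1 else 0 := ⟨_, rfl⟩
  obtain ⟨d, hd⟩ : ∃ d : Ω → ℝ, d = fun ω => Real.log N -
      H (Pool.Agent.H49.Ent.cond p s (s ω)) T := ⟨_, rfl⟩
  have hlaw : ∀ ω, 0 < p ω → IsLaw (Pool.Agent.H49.Ent.cond p s (s ω)) := fun ω hω =>
    ⟨fun a => cond_nonneg hp0 _ _ a, sum_cond p _ (law_pos hp0 s hω).ne'⟩
  have hd0 : ∀ ω, 0 < p ω → 0 ≤ d ω := by
    intro ω hω
    have h1 := H_le_log_card (hlaw ω hω).nonneg (hlaw ω hω).sum_one T (Finset.range N)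
      (fun ω _ => Finset.mem_range.2 (hT ω))
    rw [Finset.card_range] at h1
    rw [hd]
    simp only
    linarith
  have hdm : Ex p d ≤ θ := by
    have h1 : Ex p (fun ω => H (Pool.Agent.H49.Ent.cond p s (s ω)) T) = CH p T s :=
      CDF.Ex_H hp0 T s
    have e := Ex_sub p (fun _ => Real.log N)
      (fun ω => H (Pool.Agent.H49.Ent.cond p s (s ω)) T)
    rw [Ex_const hp.sum_one, h1] at e
    rw [hd, e]
    linarith
  -- the pointwise bound
  have hpt : ∀ ω, 0 < p ω → M * Ex (Pool.Agent.H49.Ent.cond p s (s ω)) g ≤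
      2 * D' * (d ω + C') := by
    intro ω hω
    have hfib : ∀ ω', 0 < Pool.Agent.H49.Ent.cond p s (s ω) ω' → s ω' = s ω := fun ω' h =>
      ((cond_pos_iff hp0 s (s ω) ω').1 h).2
    by_cases hBω : B (s ω)
    · rw [hd]
      simp only
      rw [hB] at hBω
      refine core (hlaw ω hω) hT hD1 (fun P S h1 h2 h3 => hrim Ω _ N T P S (hlaw ω hω) hT h1 h2 h3)
        ((hq (s ω)).trans hDD) hM0.le (hS₀ (s ω)) hN g (fun ω' h => ?_) (fun ω' h h' => ?_) hBω
      · rw [hg]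
        simp only
        split_ifs
        · exact ⟨zero_le_one, le_rfl⟩
        · exact ⟨le_rfl, zero_le_one⟩
      · have h1 := hfib ω' h
        have h2 : Gd ω' := by
          by_contra h3
          refine h' ?_
          rw [hg]
          simp only
          rw [if_neg fun h4 => h3 h4.2]
        have h3 := hGd ω' h2
        rwa [h1] at h3
    · have h1 : Ex (Pool.Agent.H49.Ent.cond p s (s ω)) g = 0 := by
        unfold Ex
        refine Finset.sum_eq_zero fun ω' _ => ?_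
        rcases ((hlaw ω hω).nonneg ω').eq_or_lt with h0 | h0
        · rw [← h0, zero_mul]
        · rw [hg]
          simp only
          rw [if_neg fun h4 => hBω (by rw [← hfib ω' h0]; exact h4.1), mul_zero]
      rw [h1, mul_zero]
      have := hd0 ω hω
      positivity
  have htow : Ex p (fun ω => Ex (Pool.Agent.H49.Ent.cond p s (s ω)) g) = Ex p g :=
    Pool.KVA.Ex_tower hp0 s g
  have h1 : M * Ex p g ≤ 2 * D' * (θ + C') := by
    rw [← htow]
    have h2 : M * Ex p (fun ω => Ex (Pool.Agent.H49.Ent.cond p s (s ω)) g) ≤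
        Ex p (fun ω => 2 * D' * (d ω + C')) := by
      unfold Ex
      rw [Finset.mul_sum]
      refine Finset.sum_le_sum fun ω _ => ?_
      rcases (hp0 ω).eq_or_lt with h0 | h0
      · rw [← h0, zero_mul, zero_mul, mul_zero]
      · have := mul_le_mul_of_nonneg_left (hpt ω h0) h0.le
        unfold Ex at this
        calc M * (p ω * ∑ x, Pool.Agent.H49.Ent.cond p s (s ω) x * g x) =
              p ω * (M * ∑ x, Pool.Agent.H49.Ent.cond p s (s ω) x * g x) := by ring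
          _ ≤ _ := this
    have h3 : Ex p (fun ω => 2 * D' * (d ω + C')) = 2 * D' * (Ex p d + C') := by
      unfold Ex
      rw [show (2 : ℝ) * D' * (∑ ω, p ω * d ω + C') = ∑ ω, 2 * D' * (p ω * d ω) +
        2 * D' * C' * ∑ ω, p ω by
          rw [hp.sum_one, ← Finset.mul_sum]
          ring, Finset.mul_sum, ← Finset.sum_add_distrib]
      refine Finset.sum_congr rfl fun ω _ => ?_
      ring
    rw [h3] at h2
    have h4 : 2 * (D' : ℝ) * (Ex p d + C') ≤ 2 * D' * (θ + C') :=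
      mul_le_mul_of_nonneg_left (by linarith) (by positivity)
    linarith
  have h2 : Pb p (fun ω => B (s ω)) ≤ Ex p g + Pb p (fun ω => ¬ Gd ω) := by
    unfold Pb Ex
    rw [← Finset.sum_add_distrib]
    refine Finset.sum_le_sum fun ω _ => ?_
    rw [hg]
    simp only
    have := hp0 ω
    by_cases a1 : B (s ω)
    · by_cases a2 : Gd ω
      · rw [if_pos a1, if_pos ⟨a1, a2⟩, if_neg (not_not.2 a2)]
        linarith
      · rw [if_pos a1, if_neg fun h => a2 h.2, if_pos a2]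
        linarith
    · rw [if_neg a1, if_neg fun h => a1 h.1]
      split_ifs
      · linarith
      · linarith
  have h3 : η < Pb p (fun ω => B (s ω)) := by
    rw [hB]
    exact hcon
  have h4 : 3 / 4 * η < Ex p g := by linarith
  have h5 : M * (3 / 4 * η) < 2 * D' * (θ + C') := lt_of_lt_of_le
    (mul_lt_mul_of_pos_left h4 hM0) h1
  have h6 : M * (3 / 4 * η) = 3 / 4 * (C * (θ + 1)) := by
    rw [hM]
    field_simp
  rw [h6, hC] at h5
  have hD0 : (0 : ℝ) ≤ D' := Nat.cast_nonneg _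
  have h7 : 0 ≤ (D' : ℝ) * (C' * θ) := by positivity
  have h8 : 0 ≤ (D' : ℝ) * θ := by positivity
  have h9 : 0 ≤ (D' : ℝ) * C' := by positivity
  nlinarith

end Pool.BFL.Rem
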