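import Pool.Agent.H19.BFL.Stmts2
import Pool.Agent.H90.BFL.Leg
import Pool.Agent.H67.BFL.Tal

/-!
# Row TRA: transport of the Taylor polynomials along a window
-/

set_option autoImplicit false

namespace Pool.BFL.Tra

open Finset
open Pool.Agent.H36.KBX (bx mem_bx support_bx eval_bound)

variable {n : ℕ}

lemma eval_sh (y x : Fin n → ℝ) (F : Pl n) :
    MvPolynomial.eval x (sh y F) = MvPolynomial.eval (fun i => x i + y i) F := by
  unfold sh
  induction F using MvPolynomial.induction_on with
  | C a => simp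
  | add p q hp hq => rw [map_add, map_add, map_add, hp, hq]
  | mul_X p i hp =>
    rw [map_mul, map_mul, map_mul, hp, MvPolynomial.aeval_X, map_add, MvPolynomial.eval_X,
      MvPolynomial.eval_C, MvPolynomial.eval_X]

lemma jt_sub (i : ℕ) (F G : Pl n) (y : Fin n → ℝ) : jt i (F - G) y = jt i F y - jt i G y := by
  unfold jt sh
  rw [map_sub, map_sub]

lemma eval_tay (j : ℕ) (F : Pl n) (y x : Fin n → ℝ) :
    MvPolynomial.eval x (tay j F y) =
      ∑ i ∈ range j, MvPolynomial.eval (fun l => x l - y l) (jt i F y) := by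
  unfold tay
  rw [map_sum]
  refine Finset.sum_congr rfl fun i _ => ?_
  rw [eval_sh]
  rfl

lemma jt_homog (i : ℕ) (F : Pl n) (y : Fin n → ℝ) : (jt i F y).IsHomogeneous i :=
  MvPolynomial.homogeneousComponent_isHomogeneous i _

/-- Values of homogeneous polynomials. -/
lemma hom_bound (n i : ℕ) (C₀ : ℝ) (hC₀ : 1 ≤ C₀) : ∃ C : ℝ, 0 ≤ C ∧ ∀ (G : Pl n) (c r : ℝ)
    (v : Fin n → ℝ), G.IsHomogeneous i → CB G c → 0 < r → (∀ l, |v l| ≤ C₀ * r) →
    |MvPolynomial.eval v G| ≤ C * c * r ^ i := by
  refine ⟨(bx n i).card * C₀ ^ (n * i), by positivity, ?_⟩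
  intro G c r v hG hc hr hv
  have h1 : v = fun l => r * (v l / r) := by
    funext l
    field_simp
  have h2 := eval_bound G hG.totalDegree_le c C₀ hC₀ hc (fun l => v l / r) fun l => by
    rw [abs_div, abs_of_pos hr, div_le_iff₀ hr]
    exact hv l
  rw [h1, eval_smul_homog hG, abs_mul, abs_of_nonneg (by positivity)]
  calc r ^ i * |MvPolynomial.eval (fun l => v l / r) G| ≤
        r ^ i * ((bx n i).card * (c * C₀ ^ (n * i))) := mul_le_mul_of_nonneg_left h2 (by positivity)
    _ = _ := by ring

/-- The coefficients of the shifted polynomial are continuous. -/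
lemma cont_sh (F : Pl n) : ∀ k, Continuous fun y : Fin n → ℝ => (sh y F).coeff k := by
  unfold sh
  induction F using MvPolynomial.induction_on with
  | C a =>
    intro k
    have : (fun y : Fin n → ℝ => (MvPolynomial.aeval (fun i => MvPolynomial.X i +
        MvPolynomial.C (y i)) (MvPolynomial.C a : Pl n) : Pl n).coeff k) =
        fun _ => (MvPolynomial.C a : Pl n).coeff k := by
      funext y
      rw [MvPolynomial.aeval_C]
      rfl
    rw [this]
    exact continuous_const
  | add p q hp hq =>
    intro k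
    simp only [map_add, MvPolynomial.coeff_add]
    exact (hp k).add (hq k)
  | mul_X p i hp =>
    intro k
    simp only [map_mul, MvPolynomial.aeval_X, mul_add, MvPolynomial.coeff_add]
    refine Continuous.add ?_ ?_
    · simp only [MvPolynomial.coeff_mul_X']
      split_ifs
      · exact hp _
      · exact continuous_const
    · have : (fun y : Fin n → ℝ => ((MvPolynomial.aeval (fun i => MvPolynomial.X i +
          MvPolynomial.C (y i)) p : Pl n) * MvPolynomial.C (y i)).coeff k) =
          fun y => (MvPolynomial.aeval (fun i => MvPolynomial.X i +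
          MvPolynomial.C (y i)) p : Pl n).coeff k * y i := by
        funext y
        rw [mul_comm _ (MvPolynomial.C (y i)), MvPolynomial.coeff_C_mul, mul_comm]
      rw [this]
      exact (hp k).mul (continuous_apply i)

lemma cont_jt (F : Pl n) (i : ℕ) (k : Fin n →₀ ℕ) :
    Continuous fun y : Fin n → ℝ => (jt i F y).coeff k := by
  unfold jt
  simp only [MvPolynomial.coeff_homogeneousComponent]
  split_ifs
  · exact cont_sh F k
  · exact continuous_const

lemma cont_dE (F : Pl n) (i : ℕ) (E : Fin n → ℝ) (k : Fin n →₀ ℕ) :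
    Continuous fun y : Fin n → ℝ => (dE E (jt i F y)).coeff k := by
  unfold dE
  simp only [MvPolynomial.coeff_sum, MvPolynomial.coeff_C_mul, MvPolynomial.coeff_pderiv]
  refine continuous_finsetSum _ fun l _ => ?_
  exact continuous_const.mul ((cont_jt F i _).mul continuous_const)

lemma dE_deg (F : Pl n) (i : ℕ) (E y : Fin n → ℝ) : (dE E (jt i F y)).totalDegree ≤ i :=
  dD_deg (D := i) (jt_homog i F y).totalDegree_le E

/-- Continuity of the integrand. -/
lemma cont_int (F : Pl n) (i : ℕ) (E : Fin n → ℝ) (y v : ℝ → Fin n → ℝ) (hy : Continuous y)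
    (hv : Continuous v) :
    Continuous fun τ : ℝ => MvPolynomial.eval (v τ) (dE E (jt i F (y τ))) := by
  have h : (fun τ : ℝ => MvPolynomial.eval (v τ) (dE E (jt i F (y τ)))) =
      fun τ => ∑ d ∈ bx n i, (dE E (jt i F (y τ))).coeff d * ∏ l, v τ l ^ d l := by
    funext τ
    rw [MvPolynomial.eval_eq']
    refine Finset.sum_subset (support_bx _ (dE_deg F i E (y τ))) fun d _ hd => ?_
    rw [MvPolynomial.notMem_support_iff.1 hd, zero_mul]
  rw [h]
  refine continuous_finsetSum _ fun d _ => Continuous.mul ?_ ?_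
  · exact (cont_dE F i E d).comp hy
  · exact continuous_finsetProd _ fun l _ => ((continuous_apply l).comp hv).pow _

theorem tra_thm : TRAStmt := by
  intro n K j C₀ hj hC₀
  have hC2 : 1 ≤ 2 * C₀ := by linarith
  choose Cf hCf0 hCf using fun i => hom_bound n i (2 * C₀) hC2
  obtain ⟨S, hS⟩ : ∃ S, S = ∑ i ∈ range j, Cf i := ⟨_, rfl⟩
  have hS0 : 0 ≤ S := by
    rw [hS]
    exact Finset.sum_nonneg fun i _ => hCf0 i
  obtain ⟨C₁, hC₁⟩ : ∃ C₁, C₁ = Cf (j - 1) * (n * C₀ * (j + 1)) := ⟨_, rfl⟩
  have hC₁0 : 0 ≤ C₁ := by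
    rw [hC₁]
    exact mul_nonneg (hCf0 _) (by positivity)
  refine ⟨1 + 2 * S + C₁, by linarith, ?_⟩
  intro Q R R' y E s r δ D _ hr hs hδ hD hE h1 h2 h3 x hx
  obtain ⟨y', hy'⟩ : ∃ y' : Fin n → ℝ, y' = fun l => y l + s * E l := ⟨_, rfl⟩
  rw [← hy'] at h2 ⊢
  -- the errors at the two end points
  have herr : ∀ (z : Fin n → ℝ) (G : Pl n), (∀ l, |x l - z l| ≤ 2 * C₀ * r) →
      (∀ i < j, CB (jt i G z) (δ / r ^ i)) → |MvPolynomial.eval x (tay j G z)| ≤ S * δ := by
    intro z G hz hG
    rw [eval_tay, hS, Finset.sum_mul]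
    refine (Finset.abs_sum_le_sum_abs _ _).trans (Finset.sum_le_sum fun i hi => ?_)
    rw [Finset.mem_range] at hi
    have := hCf i (jt i G z) _ r (fun l => x l - z l) (jt_homog i G z) (hG i hi) hr hz
    refine this.trans (le_of_eq ?_)
    field_simp
  have hxy : ∀ l, |x l - y l| ≤ 2 * C₀ * r := fun l => by
    have := hx l
    have h0 : 0 ≤ C₀ * r := by positivity
    linarith
  have hsE : ∀ (τ : ℝ) (l : Fin n), |τ| ≤ |s| → |τ * E l| ≤ C₀ * r := by
    intro τ l hτ
    rw [abs_mul, mul_comm]
    exact mul_le_mul (hE l) (hτ.trans hs) (abs_nonneg _) (by linarith)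
  have hxy' : ∀ l, |x l - y' l| ≤ 2 * C₀ * r := fun l => by
    have e1 := hx l
    have e2 := hsE s l le_rfl
    rw [hy']
    simp only
    rw [abs_le] at e1 e2 ⊢
    constructor <;> linarith [e1.1, e1.2, e2.1, e2.2]
  have a1 := herr y (Q - R) hxy h1
  have a2 := herr y' (Q - R') hxy' h2
  have e1 : MvPolynomial.eval x (tay j (Q - R) y) =
      MvPolynomial.eval x (tay j Q y) - MvPolynomial.eval x (tay j R y) := by
    rw [eval_tay, eval_tay, eval_tay, ← Finset.sum_sub_distrib]
    refine Finset.sum_congr rfl fun i _ => ?_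
    rw [jt_sub, map_sub]
  have e2 : MvPolynomial.eval x (tay j (Q - R') y') =
      MvPolynomial.eval x (tay j Q y') - MvPolynomial.eval x (tay j R' y') := by
    rw [eval_tay, eval_tay, eval_tay, ← Finset.sum_sub_distrib]
    refine Finset.sum_congr rfl fun i _ => ?_
    rw [jt_sub, map_sub]
  -- the integral
  have hT := Pool.Agent.H67.BFL.tal_thm n j Q y E s x
  rw [← hy'] at hT
  have c1 : Continuous fun τ : ℝ => MvPolynomial.eval (fun i => x i - y i - τ * E i)
      (dE E (jt j Q (fun i => y i + τ * E i))) :=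
    cont_int Q j E (fun τ i => y i + τ * E i) (fun τ i => x i - y i - τ * E i)
      (continuous_pi fun i => by fun_prop) (continuous_pi fun i => by fun_prop)
  have c2 : Continuous fun τ : ℝ => MvPolynomial.eval (fun i => x i - y i - τ * E i)
      (dE E (jt j Q y)) :=
    cont_int Q j E (fun _ => y) (fun τ i => x i - y i - τ * E i)
      continuous_const (continuous_pi fun i => by fun_prop)
  have hint : |MvPolynomial.eval x (tay j Q y') - MvPolynomial.eval x (tay j Q y) -
      lg (dE E (jt j Q y)) y E s x| ≤ C₁ * (D * r ^ j) := by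
    rw [hT]
    unfold lg
    rw [← intervalIntegral.integral_sub (c1.intervalIntegrable _ _) (c2.intervalIntegrable _ _)]
    have hb : ∀ τ ∈ Set.uIoc (0 : ℝ) s, ‖MvPolynomial.eval (fun i => x i - y i - τ * E i)
        (dE E (jt j Q (fun i => y i + τ * E i))) -
        MvPolynomial.eval (fun i => x i - y i - τ * E i) (dE E (jt j Q y))‖ ≤
        C₁ * D * r ^ (j - 1) := by
      intro τ hτ
      have hτ1 : τ ∈ Set.uIcc (0 : ℝ) s := Set.uIoc_subset_uIcc hτ
      have hτ2 : |τ| ≤ |s| := by
        have := Set.abs_sub_left_of_mem_uIcc hτ1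
        rwa [sub_zero, sub_zero] at this
      have hG : (jt j Q (fun i => y i + τ * E i) - jt j Q y).IsHomogeneous j :=
        (jt_homog _ _ _).sub (jt_homog _ _ _)
      have k1 := h3 τ hτ1
      have k2 := dD_homog hG E
      have k3 := CB_dD hG.totalDegree_le k1 hE
      have k4 : MvPolynomial.eval (fun i => x i - y i - τ * E i)
          (dE E (jt j Q (fun i => y i + τ * E i))) -
          MvPolynomial.eval (fun i => x i - y i - τ * E i) (dE E (jt j Q y)) =
          MvPolynomial.eval (fun i => x i - y i - τ * E i)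
            (dD E (jt j Q (fun i => y i + τ * E i) - jt j Q y)) := by
        rw [dD_sub, map_sub]
        rfl
      rw [Real.norm_eq_abs, k4]
      have k5 := hCf (j - 1) _ _ r (fun i => x i - y i - τ * E i) k2 k3 hr (fun l => by
        have e1 := hx l
        have e2 := hsE τ l hτ2
        rw [abs_le] at e1 e2 ⊢
        constructor <;> linarith [e1.1, e1.2, e2.1, e2.2])
      refine k5.trans (le_of_eq ?_)
      rw [hC₁]
      ring
    have hI := intervalIntegral.norm_integral_le_of_norm_le_const hb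
    rw [Real.norm_eq_abs, sub_zero] at hI
    refine hI.trans ?_
    have hrj : r ^ (j - 1) * r = r ^ j := by
      rw [← pow_succ]
      congr 1
      omega
    calc C₁ * D * r ^ (j - 1) * |s| ≤ C₁ * D * r ^ (j - 1) * r :=
          mul_le_mul_of_nonneg_left hs (by positivity)
      _ = C₁ * (D * (r ^ (j - 1) * r)) := by ring
      _ = _ := by rw [hrj]
  have hfin : MvPolynomial.eval x (tay j R' y') - MvPolynomial.eval x (tay j R y) -
      lg (dE E (jt j Q y)) y E s x =
      (MvPolynomial.eval x (tay j Q y') - MvPolynomial.eval x (tay j Q y) -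
      lg (dE E (jt j Q y)) y E s x) - MvPolynomial.eval x (tay j (Q - R') y') +
      MvPolynomial.eval x (tay j (Q - R) y) := by
    rw [e1, e2]
    ring
  rw [hfin]
  have hDr : 0 ≤ D * r ^ j := by positivity
  have b1 : |(MvPolynomial.eval x (tay j Q y') - MvPolynomial.eval x (tay j Q y) -
      lg (dE E (jt j Q y)) y E s x) - MvPolynomial.eval x (tay j (Q - R') y') +
      MvPolynomial.eval x (tay j (Q - R) y)| ≤ C₁ * (D * r ^ j) + S * δ + S * δ := by
    rw [abs_le] at a1 a2 hint ⊢
    constructor <;> linarith [a1.1, a1.2, a2.1, a2.2, hint.1, hint.2]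
  have b2 : 0 ≤ C₁ * δ := by positivity
  have b3 : 0 ≤ S * (D * r ^ j) := by positivity
  nlinarith

end Pool.BFL.Tra
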